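import Pool.Agent.Helper23.QF.Goals

/-!
# Packet QF-DIM (MP_ab92ec_nt)
-/

set_option autoImplicit false

open scoped ENNReal NNReal Matrix MeasureTheory
open MeasureTheory Filter Topology

namespace Pool.Agent.Helper73.QF

open Pool.Agent.Helper23.QF

theorem M00_cons (x : ℕ) (w : List ℕ) : M (x :: w) 0 0 = x * M w 0 0 + M w 1 0 := by
  rw [M_cons]; simp [mat, Matrix.mul_apply, Fin.sum_univ_two]

theorem M01_cons (x : ℕ) (w : List ℕ) : M (x :: w) 0 1 = x * M w 0 1 + M w 1 1 := by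
  rw [M_cons]; simp [mat, Matrix.mul_apply, Fin.sum_univ_two]

theorem M10_cons (x : ℕ) (w : List ℕ) : M (x :: w) 1 0 = M w 0 0 := by
  rw [M_cons]; simp [mat, Matrix.mul_apply, Fin.sum_univ_two]

theorem M11_cons (x : ℕ) (w : List ℕ) : M (x :: w) 1 1 = M w 0 1 := by
  rw [M_cons]; simp [mat, Matrix.mul_apply, Fin.sum_univ_two]

/-- the first `n` letters after position `i` -/
def wd (u : ℕ → ℕ) : ℕ → ℕ → List ℕ
  | _, 0 => []
  | i, n + 1 => u i :: wd u (i + 1) n

theorem wd_mem (a b : ℕ) (u : ℕ → ℕ) (hu : ∀ i, u i = a ∨ u i = b) (n : ℕ) :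
    ∀ i, wd u i n ∈ words a b n := by
  induction n with
  | zero => intro i; simp [wd, words]
  | succ n ih =>
    intro i
    rw [words, wd, Finset.mem_union]
    rcases hu i with h | h
    · left; rw [h]; exact Finset.mem_image_of_mem _ (ih _)
    · right; rw [h]; exact Finset.mem_image_of_mem _ (ih _)

theorem words_pos (a b : ℕ) (ha : 0 < a) (hb : 0 < b) (n : ℕ) :
    ∀ w ∈ words a b n, w.length = n ∧ ∀ x ∈ w, 1 ≤ x := by
  induction n with
  | zero => intro w hw; simp [words] at hw; simp [hw]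
  | succ n ih =>
    intro w hw
    rw [words, Finset.mem_union, Finset.mem_image, Finset.mem_image] at hw
    rcases hw with ⟨v, hv, rfl⟩ | ⟨v, hv, rfl⟩
    · obtain ⟨h1, h2⟩ := ih v hv
      refine ⟨by simp [h1], ?_⟩
      intro x hx
      rcases List.mem_cons.1 hx with h | h
      · omega
      · exact h2 x h
    · obtain ⟨h1, h2⟩ := ih v hv
      refine ⟨by simp [h1], ?_⟩
      intro x hx
      rcases List.mem_cons.1 hx with h | h
      · omega
      · exact h2 x h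

theorem length_le_K (w : List ℕ) (hw : ∀ x ∈ w, 1 ≤ x) : (w.length : ℤ) ≤ K w := by
  unfold K
  induction w with
  | nil => simp [M]
  | cons x w ih =>
    have h1 := ih (fun y hy => hw y (List.mem_cons_of_mem _ hy))
    have hx : (1 : ℤ) ≤ x := by exact_mod_cast hw x List.mem_cons_self
    obtain ⟨e1, e2, e3, e4, e5, e6⟩ := M_entries w (fun y hy => hw y (List.mem_cons_of_mem _ hy))
    rw [M00_cons]
    rcases w with _ | ⟨y, v⟩
    · simp [M]
      exact_mod_cast hw x List.mem_cons_self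
    · rw [M10_cons] at *
      obtain ⟨f1, -⟩ := M_entries v (fun z hz => hw z (List.mem_cons_of_mem _ (List.mem_cons_of_mem _ hz)))
      simp only [List.length_cons] at h1 ⊢
      push_cast at h1 ⊢
      nlinarith

theorem complete_quot (y : ℕ → ℝ) (u : ℕ → ℕ) (hy : ∀ i, 1 < y i)
    (h : ∀ i, y i = u i + 1 / y (i + 1)) (n : ℕ) :
    ∀ i, y i * (M (wd u i n) 1 0 * y (i + n) + M (wd u i n) 1 1) =
      M (wd u i n) 0 0 * y (i + n) + M (wd u i n) 0 1 := by
  induction n with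
  | zero => intro i; simp [wd, M]
  | succ n ih =>
    intro i
    have h1 := ih (i + 1)
    rw [wd, M00_cons, M01_cons, M10_cons, M11_cons]
    rw [show i + 1 + n = i + (n + 1) by ring] at h1
    have h2 := hy (i + 1)
    have h3 : y i * y (i + 1) = u i * y (i + 1) + 1 := by
      rw [h i]
      field_simp
    push_cast
    linear_combination (u i - y i) * h1 +
      (M (wd u (i + 1) n) 1 0 * y (i + (n + 1)) + M (wd u (i + 1) n) 1 1) * h3

theorem wd_pos (u : ℕ → ℕ) (hu : ∀ i, 1 ≤ u i) (n : ℕ) : ∀ i, ∀ x ∈ wd u i n, 1 ≤ x := by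
  induction n with
  | zero => intro i x hx; simp [wd] at hx
  | succ n ih =>
    intro i x hx
    rw [wd] at hx
    rcases List.mem_cons.1 hx with h | h
    · rw [h]; exact hu i
    · exact ih (i + 1) x h

/-- the distance to the convergent -/
theorem dist_conv (y : ℕ → ℝ) (u : ℕ → ℕ) (hy : ∀ i, 1 < y i) (hu : ∀ i, 1 ≤ u i)
    (h : ∀ i, y i = u i + 1 / y (i + 1)) (n : ℕ) :
    |1 / y 0 - (M (wd u 0 n) 1 0 : ℝ) / M (wd u 0 n) 0 0| ≤ 1 / (K (wd u 0 n) : ℝ) ^ 2 := by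
  have h1 := complete_quot y u hy h n 0
  rw [zero_add] at h1
  obtain ⟨e1, e2, e3, e4, e5, e6⟩ := M_entries (wd u 0 n) (wd_pos u hu n 0)
  have hdet := M_det (wd u 0 n)
  rw [Matrix.det_fin_two] at hdet
  unfold K
  set A := M (wd u 0 n) 0 0
  set B := M (wd u 0 n) 0 1
  set C := M (wd u 0 n) 1 0
  set D := M (wd u 0 n) 1 1
  have hA : (1 : ℝ) ≤ A := by exact_mod_cast e1
  have hB : (0 : ℝ) ≤ B := by exact_mod_cast e2
  have hC : (0 : ℝ) ≤ C := by exact_mod_cast e3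
  have hD : (0 : ℝ) ≤ D := by exact_mod_cast e4
  have hdet' : (A : ℝ) * D - B * C = (-1) ^ (wd u 0 n).length := by exact_mod_cast hdet
  have hy0 := hy 0
  have hyn := hy n
  have hpos : 0 < (A : ℝ) * y n + B := by nlinarith
  have hpos2 : 0 < (C : ℝ) * y n + D := by
    by_contra hcon
    have : (C : ℝ) * y n + D = 0 := le_antisymm (not_lt.1 hcon) (by positivity)
    rw [this, mul_zero] at h1
    linarith
  have h2 : 1 / y 0 - (C : ℝ) / A = (-1) ^ (wd u 0 n).length / (A * (A * y n + B)) := by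
    have h3 : 1 / y 0 = (C * y n + D) / (A * y n + B) := by
      rw [← h1]
      field_simp
    rw [h3, ← hdet']
    field_simp
    ring
  rw [h2, abs_div, abs_pow, abs_neg, abs_one, one_pow, abs_of_pos (by positivity)]
  apply one_div_le_one_div_of_le (by positivity)
  nlinarith

theorem ediam_eq (c k : ℝ) (s : ℝ≥0) (hk : 0 < k) :
    Metric.ediam (Set.Icc (c - 1 / k ^ 2) (c + 1 / k ^ 2)) ^ (s : ℝ) =
      ENNReal.ofReal (8 ^ (s : ℝ) * (2 * k) ^ (-(2 * (s : ℝ)))) := by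
  rw [Real.ediam_Icc]
  have e1 : c + 1 / k ^ 2 - (c - 1 / k ^ 2) = 8 * ((2 * k) ^ (-(2 : ℝ))) := by
    rw [Real.rpow_neg (by positivity), Real.rpow_two]
    field_simp
    ring
  rw [e1, ENNReal.ofReal_rpow_of_nonneg (by positivity) s.coe_nonneg]
  congr 1
  rw [Real.mul_rpow (by norm_num) (by positivity), ← Real.rpow_mul (by positivity)]
  congr 2
  ring

theorem gDIM (h : GCFINV) : GDIM := by
  intro a b s ha hb hs
  by_contra hcon
  push Not at hcon
  refine absurd hs (not_lt.2 ?_)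
  have hE : {x : ℝ | InE a b x} ⊆ ⋃ j : ℤ, {x : ℝ | InE a b x ∧ ⌊x⌋ = j} := by
    intro x hx
    exact Set.mem_iUnion.2 ⟨⌊x⌋, hx, rfl⟩
  refine (dimH_mono hE).trans ?_
  rw [dimH_iUnion]
  refine iSup_le fun j => ?_
  apply dimH_le_of_hausdorffMeasure_ne_top
  have hkey := Measure.hausdorffMeasure_le_liminf_sum (X := ℝ) (β := ℕ) (ι := fun n => {w // w ∈ words a b n})
    (s : ℝ) {x : ℝ | InE a b x ∧ ⌊x⌋ = j} (l := atTop) (fun n => ENNReal.ofReal (2 * (1 / (n : ℝ)) ^ 2))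
    ?_ (fun n w => Set.Icc ((j : ℝ) + (M w.1 1 0 : ℝ) / M w.1 0 0 - 1 / (K w.1 : ℝ) ^ 2)
      ((j : ℝ) + (M w.1 1 0 : ℝ) / M w.1 0 0 + 1 / (K w.1 : ℝ) ^ 2)) ?_ ?_
  · refine ne_top_of_le_ne_top ?_ hkey
    have hb8 : ∀ n, ∑ i : {w // w ∈ words a b n}, Metric.ediam (Set.Icc ((j : ℝ) + (M i.1 1 0 : ℝ) / M i.1 0 0 -
        1 / (K i.1 : ℝ) ^ 2) ((j : ℝ) + (M i.1 1 0 : ℝ) / M i.1 0 0 + 1 / (K i.1 : ℝ) ^ 2)) ^ (s : ℝ) ≤
        ENNReal.ofReal (8 ^ (s : ℝ)) := by
      intro n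
      have h1 : ∀ i : {w // w ∈ words a b n}, Metric.ediam (Set.Icc ((j : ℝ) + (M i.1 1 0 : ℝ) / M i.1 0 0 -
        1 / (K i.1 : ℝ) ^ 2) ((j : ℝ) + (M i.1 1 0 : ℝ) / M i.1 0 0 + 1 / (K i.1 : ℝ) ^ 2)) ^ (s : ℝ) =
        ENNReal.ofReal (8 ^ (s : ℝ) * (2 * (K i.1 : ℝ)) ^ (-(2 * (s : ℝ)))) := by
        intro i
        have hK : (0 : ℝ) < K i.1 := by
          obtain ⟨e1, -⟩ := M_entries i.1 (words_pos a b ha hb n i.1 i.2).2
          exact_mod_cast (by unfold K; linarith : (0 : ℤ) < K i.1)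
        exact ediam_eq _ _ s hK
      rw [Finset.sum_congr rfl (fun i _ => h1 i), ← ENNReal.ofReal_sum_of_nonneg (fun i _ => ?_)]
      swap
      · have hK : (0 : ℝ) ≤ 2 * (K i.1 : ℝ) := by
          obtain ⟨e1, -⟩ := M_entries i.1 (words_pos a b ha hb n i.1 i.2).2
          have : (0 : ℝ) ≤ (K i.1 : ℝ) := by exact_mod_cast (by unfold K; linarith : (0 : ℤ) ≤ K i.1)
          linarith
        exact mul_nonneg (by positivity) (Real.rpow_nonneg hK _)
      apply ENNReal.ofReal_le_ofReal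
      rw [← Finset.mul_sum]
      have h2 : ∑ i : {w // w ∈ words a b n}, (2 * (K i.1 : ℝ)) ^ (-(2 * (s : ℝ))) =
          ∑ w ∈ words a b n, (2 * (K w : ℝ)) ^ (-(2 * (s : ℝ))) :=
        Finset.sum_coe_sort (words a b n) (fun w => (2 * (K w : ℝ)) ^ (-(2 * (s : ℝ))))
      rw [h2]
      have h3 := (hcon n).le
      have h4 : (0 : ℝ) ≤ 8 ^ (s : ℝ) := by positivity
      nlinarith
    refine ne_top_of_le_ne_top ENNReal.ofReal_ne_top (?_ : _ ≤ ENNReal.ofReal (8 ^ (s : ℝ)))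
    refine (liminf_le_liminf (Eventually.of_forall hb8)).trans ?_
    simp
  · have h1 : Tendsto (fun n : ℕ => 2 * (1 / (n : ℝ)) ^ 2) atTop (𝓝 (2 * 0 ^ 2)) :=
      (tendsto_one_div_atTop_nhds_zero_nat.pow 2).const_mul 2
    have h2 := ENNReal.tendsto_ofReal h1
    simpa using h2
  · filter_upwards [eventually_ge_atTop 1] with n hn i
    obtain ⟨h1, h2⟩ := words_pos a b ha hb n i.1 i.2
    have h3 := length_le_K i.1 h2
    rw [h1] at h3
    have h4 : (n : ℝ) ≤ K i.1 := by exact_mod_cast h3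
    have h5 : (1 : ℝ) ≤ n := by exact_mod_cast hn
    rw [Real.ediam_Icc]
    apply ENNReal.ofReal_le_ofReal
    have h6 : 1 / (K i.1 : ℝ) ^ 2 ≤ (1 / (n : ℝ)) ^ 2 := by
      rw [one_div_pow]
      apply one_div_le_one_div_of_le (by positivity)
      nlinarith
    linarith
  · refine Eventually.of_forall fun n x hx => ?_
    obtain ⟨hx1, hx2⟩ := hx
    obtain ⟨y, u, hy, hu, hx0, hyu⟩ := h a b x ha hb hx1
    have hu1 : ∀ i, 1 ≤ u i := by
      intro i
      rcases hu i with h | h <;> omega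
    have h1 := dist_conv y u hy hu1 hyu n
    refine Set.mem_iUnion.2 ⟨⟨wd u 0 n, wd_mem a b u hu n 0⟩, ?_⟩
    rw [hx2] at hx0
    have h2 := abs_le.1 h1
    constructor
    · simp only
      linarith [h2.1]
    · simp only
      linarith [h2.2]

end Pool.Agent.Helper73.QF
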